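import Pool.Agent.P.MP_93aff1_lc.Hered
import Pool.Agent.P.MP_93aff1_lc.Derive

set_option autoImplicit false

open Pool.Agent.Lib.PosetForcing Pool.Agent.P.MP_93aff1_lc

namespace Pool.Agent.Results.MP_93aff1_lc.CountableImage

theorem result :
    ∃ (M : Type 2) (mem : M → M → Prop), IsZFC mem ∧
      ∃ w w1 C : M, IsOmega mem w ∧ IsOmega1 mem w1 w ∧ IsPow mem C w ∧
        MA mem w C ∧ ¬ LeCard mem C w1 ∧
        ∃ A B : M, Aleph1Dense mem A C w w1 ∧ Aleph1Dense mem B C w w1 ∧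
          ∀ f, IsLipschitz mem f C w → ∀ S,
            (∀ y, mem y S → mem y B ∧ ∃ x, mem x A ∧ App mem f x y) → LeCard mem S w := by
  obtain ⟨U, -⟩ := exists_gen (⊤ : PP)
  exact ⟨Mod U, Mod.mem, isZFC U, wN.val U, w1N.val U, cN.val U, isOmega_omega U, isOmega1_w1N U,
    isPow_powName _ U, ma_holds U, not_ch U, _, _, aleph1Dense false U, aleph1Dense true U,
    image_countable U⟩

/-- The wording of the problem file, derived from `result`. -/
theorem posed :
    ∃ (M : Type 2) (mem : M → M → Prop), IsZFC mem ∧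
      ∃ w w1 C : M, IsOmega mem w ∧ IsOmega1 mem w1 w ∧ IsPow mem C w ∧
        MA mem w C ∧ ¬ LeCard mem C w1 ∧ ¬ BALip mem w w1 C := by
  obtain ⟨M, mem, hZ, w, w1, C, ho, hw, hC, hM, hn, A, B, hA, hB, h⟩ := result
  exact ⟨M, mem, hZ, w, w1, C, ho, hw, hC, hM, hn, Derive.not_baLip hZ ho hw hC hA hB h⟩

end Pool.Agent.Results.MP_93aff1_lc.CountableImage
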