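import Pool.Agent.P.MP_93aff1_lc.Ulam

set_option autoImplicit false

open Cardinal

namespace Pool.Agent.Results.MP_93aff1_lc.Refuted

theorem result : ∃ A B : Set (ℕ → Bool),
    (∀ U : Set (ℕ → Bool), IsOpen U → U.Nonempty → #(↥(A ∩ U)) = ℵ₁) ∧
    (∀ U : Set (ℕ → Bool), IsOpen U → U.Nonempty → #(↥(B ∩ U)) = ℵ₁) ∧
    ∀ f : (ℕ → Bool) → ℕ → Bool,
      (∀ (k : ℕ) (x y : ℕ → Bool), (∀ i < k, x i = y i) → ∀ i < k, f x i = f y i) →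
      Set.MapsTo f A B → ∃ b, ¬ (A ∩ f ⁻¹' {b}).Countable :=
  Pool.Agent.P.MP_93aff1_lc.Ulam.main

end Pool.Agent.Results.MP_93aff1_lc.Refuted
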